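import Pool.Agent.Lib.MP_305fdd_al.VF.Main
import Pool.Agent.Lib.MP_305fdd_al.CC.Coprod
import Pool.Agent.Lib.MP_305fdd_al.PSL.Modular

/-!
# MP_305fdd_al, block VF: the modular group is a free product of cyclic groups of orders 2 and 3
-/

set_option autoImplicit false

namespace Pool.Agent.VF

open Monoid Pool.Agent.MP_305fdd_al Pool.Agent.Lib.MP_305fdd_al

/-- two homomorphisms of a cyclic group agree if they agree on the generator -/
theorem psl_hom_ext {n : ℕ} {G : Type} [Group G] {f g : Multiplicative (ZMod n) →* G}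
    (h : f (Multiplicative.ofAdd 1) = g (Multiplicative.ofAdd 1)) : f = g := by
  refine MonoidHom.eq_of_eqOn_dense (Pool.Agent.CC.zmod_closure n) ?_
  intro x hx
  rw [Set.mem_singleton_iff] at hx
  rw [hx, h]

/-- the family of the orders -/
def psl_m : Fin 2 → ℕ := ![2, 3]

theorem psl_equiv :
    Nonempty (FP psl_m ≃* Matrix.ProjectiveSpecialLinearGroup (Fin 2) ℤ) := by
  obtain ⟨x, y, h⟩ := Pool.Agent.PSL2Z.isC2C3_psl
  let a : FP psl_m := CoprodI.of (i := 0) (Multiplicative.ofAdd (1 : ZMod 2))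
  let b : FP psl_m := CoprodI.of (i := 1) (Multiplicative.ofAdd (1 : ZMod 3))
  have ha : a ^ 2 = 1 := by
    show (CoprodI.of (M := fun i => Multiplicative (ZMod (psl_m i))) (i := 0)
      (Multiplicative.ofAdd (1 : ZMod 2))) ^ 2 = 1
    rw [← map_pow]
    have : (Multiplicative.ofAdd (1 : ZMod 2)) ^ 2 = 1 := by decide
    exact (congrArg _ this).trans (map_one _)
  have hb : b ^ 3 = 1 := by
    show (CoprodI.of (M := fun i => Multiplicative (ZMod (psl_m i))) (i := 1)
      (Multiplicative.ofAdd (1 : ZMod 3))) ^ 3 = 1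
    rw [← map_pow]
    have : (Multiplicative.ofAdd (1 : ZMod 3)) ^ 3 = 1 := by decide
    exact (congrArg _ this).trans (map_one _)
  obtain ⟨f, hfx, hfy⟩ := h.lift (FP psl_m) a b ha hb
  obtain ⟨gx, hgx⟩ := Pool.Agent.CC.exists_zmod_hom 2 x h.sq
  obtain ⟨gy, hgy⟩ := Pool.Agent.CC.exists_zmod_hom 3 y h.cube
  let φ : (i : Fin 2) → Multiplicative (ZMod (psl_m i)) →*
      Matrix.ProjectiveSpecialLinearGroup (Fin 2) ℤ :=
    fun i => match i with
      | 0 => gx
      | 1 => gy
  let g : FP psl_m →* Matrix.ProjectiveSpecialLinearGroup (Fin 2) ℤ := CoprodI.lift φ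
  have hga : g a = x := (CoprodI.lift_of φ _).trans hgx
  have hgb : g b = y := (CoprodI.lift_of φ _).trans hgy
  have h1 : g.comp f = MonoidHom.id _ := by
    refine MonoidHom.eq_of_eqOn_dense h.gen ?_
    rintro z (rfl | hz)
    · show g (f z) = z
      rw [hfx, hga]
    · rw [Set.mem_singleton_iff] at hz
      subst hz
      show g (f z) = z
      rw [hfy, hgb]
  have h2 : f.comp g = MonoidHom.id _ := by
    refine CoprodI.ext_hom _ _ ?_
    intro i
    match i with
    | 0 =>
      refine psl_hom_ext (n := 2) ?_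
      show f (g a) = a
      rw [hga, hfx]
    | 1 =>
      refine psl_hom_ext (n := 3) ?_
      show f (g b) = b
      rw [hgb, hfy]
  exact ⟨g.toMulEquiv f h2 h1⟩

/-- finitely generated subgroups of the modular group -/
theorem rigid_psl (hFR : FR) (H : Subgroup (Matrix.ProjectiveSpecialLinearGroup (Fin 2) ℤ))
    (hH : H.FG) : ProfinitelyRigid H := by
  obtain ⟨e⟩ := psl_equiv
  exact rigid_subgroup hFR (fun i => Multiplicative (ZMod (psl_m i))) (fun _ => inferInstance) e H hH

end Pool.Agent.VF
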