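import Pool.Agent.Lib.MP_305fdd_al.VF.P.Main
import Pool.Agent.Lib.MP_305fdd_al.VF.I.Final
import Pool.Agent.Lib.MP_305fdd_al.VF.S.Main

/-!
# MP_305fdd_al, block VF: if the free groups are profinitely rigid, then so are all free products of
finitely many cyclic groups and all finitely generated subgroups of them
-/

set_option autoImplicit false

namespace Pool.Agent.VF

open Monoid Pool.Agent.MP_305fdd_al Pool.Agent.Lib.MP_305fdd_al

/-- profinite rigidity is invariant under isomorphism -/
theorem rigid_of_equiv {G H : Type} [Group G] [Group H] (e : G ≃* H) (h : ProfinitelyRigid G) :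
    ProfinitelyRigid H := by
  intro Λ _ hΛ
  obtain ⟨hfg, hrf, hs⟩ := hΛ
  obtain ⟨f⟩ := h Λ ⟨hfg, hrf, hs.trans (sameFQ_of_surj e.symm.toMonoidHom e.symm.surjective
    e.toMonoidHom e.surjective)⟩
  exact ⟨f.trans e⟩

/-- **The main theorem of the block.** -/
theorem s_VF : S_VF := vf_of p_P (p_I Pool.Agent.VFS.p_S) p_M

/-- the free products of finitely many cyclic groups, given as groups -/
theorem rigid_coprodI (hFR : FR) {ι : Type} [Finite ι] (C : ι → Type) [∀ i, Group (C i)]
    (hC : ∀ i, IsCyclic (C i)) {Γ : Type} [Group Γ] (e : CoprodI C ≃* Γ) : ProfinitelyRigid Γ := by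
  obtain ⟨e1⟩ : Nonempty (FP (fun i => Nat.card (C i)) ≃* CoprodI C) :=
    coprodI_congr fun i => ⟨zmodCyclicMulEquiv (hC i)⟩
  exact rigid_of_equiv (e1.trans e) (s_VF hFR ι _)

/-- finitely generated subgroups of free products of finitely many cyclic groups -/
theorem rigid_subgroup (hFR : FR) {ι : Type} [Finite ι] (C : ι → Type) [∀ i, Group (C i)]
    (hC : ∀ i, IsCyclic (C i)) {Γ : Type} [Group Γ] (e : CoprodI C ≃* Γ) (H : Subgroup Γ)
    (hH : H.FG) : ProfinitelyRigid H := by
  obtain ⟨e1⟩ : Nonempty (FP (fun i => Nat.card (C i)) ≃* CoprodI C) :=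
    coprodI_congr fun i => ⟨zmodCyclicMulEquiv (hC i)⟩
  let f : Γ ≃* FP (fun i => Nat.card (C i)) := (e1.trans e).symm
  have e2 : H ≃* H.map f.toMonoidHom := f.subgroupMap H
  have hfg : Group.FG (H.map f.toMonoidHom) := by
    have : Group.FG H := (Group.fg_iff_subgroup_fg H).2 hH
    exact Group.fg_of_surjective (f := e2.toMonoidHom) e2.surjective
  obtain ⟨N, hN, hl⟩ : ∃ N : ℕ, N ≠ 0 ∧ ∀ i, Allowed N (Nat.card (C i)) := by
    classical
    have := Fintype.ofFinite ι
    refine ⟨∏ i, (if Nat.card (C i) = 0 then 1 else Nat.card (C i)), ?_, ?_⟩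
    · rw [Finset.prod_ne_zero_iff]
      intro i _
      split
      · exact one_ne_zero
      · assumption
    · intro i
      by_cases h : Nat.card (C i) = 0
      · exact Or.inl h
      · refine Or.inr ?_
        have h1 := Finset.dvd_prod_of_mem
          (fun i => if Nat.card (C i) = 0 then 1 else Nat.card (C i)) (Finset.mem_univ i)
        simpa only [if_neg h] using h1
  obtain ⟨n, l', -, -, ⟨e3⟩⟩ := fg_subgroup (fun i => Nat.card (C i)) hl (H.map f.toMonoidHom) hfg
  exact rigid_of_equiv (e2.trans e3).symm (s_VF hFR (Fin n) l')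

end Pool.Agent.VF
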