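import Pool.Agent.Lib.MP_305fdd_al.Fr.T.BSH
import Pool.Agent.Lib.MP_305fdd_al.Cyclic
import Pool.Agent.Lib.MP_305fdd_al.Torsion2

/-!
# MP_305fdd_al, block VF: from free groups to free products of cyclic groups. Definitions and the
top-level statements (interfaces).

If `F_r` is profinitely rigid for all `r ≥ 2`, then every free product `FP m` of finitely many cyclic
groups (`m i = 0`: infinite cyclic) is profinitely rigid.

Parts: (P) a group in the genus of `FP m` is in the class `VC`; (S) a splitting of a virtually free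
group over a finite group; (R) the rank of the free subgroup drops; (I) a group in the class `VC` is a free
product of cyclic groups; (M) matching of the factors.
-/

set_option autoImplicit false

namespace Pool.Agent.VF

open Pool.Agent.MP_305fdd_al Pool.Agent.Lib.MP_305fdd_al Pool.Agent.FrT

/-- The class `VC`: `α : V → T` is a homomorphism (to a finite abelian group) whose kernel is free of
rank `r`; the centralisers of the nontrivial torsion elements of `V` are finite and cyclic. -/
structure VC (V : Type) [Group V] {T : Type} [CommGroup T] (α : V →* T) (r : ℕ) : Prop where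
  fr : Nonempty (α.ker ≃* FreeGroup (Fin r))
  fin : ∀ x : V, x ≠ 1 → IsOfFinOrder x → Finite (Subgroup.centralizer ({x} : Set V))
  cyc : ∀ x : V, x ≠ 1 → IsOfFinOrder x → IsCyclic (Subgroup.centralizer ({x} : Set V))

/-- A splitting: `V` acts on the tree `X`, the edge `(u, v)` is not inverted and has a finite
stabiliser `SC V u v`; some `k ∈ N` moves every vertex out of its component of `X` without the orbit
of the edge (`Rch`, `Sst`, `SC` are defined in `Fr/T/BS.lean`). -/
structure Spl (V : Type) [Group V] {W : Type} [MulAction V W] (X : SimpleGraph W) (u v : W)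
    (N : Subgroup V) : Prop where
  tree : X.IsTree
  act : ∀ (g : V) (x y : W), X.Adj x y → X.Adj (g • x) (g • y)
  adj : X.Adj u v
  inv : ∀ g : V, ¬ (g • u = v ∧ g • v = u)
  fin : Finite (SC V u v)
  mov : ∃ k ∈ N, ∀ x, ¬ Rch V X u v (k • x) x

/-- the hypothesis of the block -/
def FR : Prop := ∀ r : ℕ, 2 ≤ r → ProfinitelyRigid (FreeGroup (Fin r))

/-- (S) an infinite virtually free group splits over a finite group -/
def S_S : Prop :=
  ∀ (V : Type) [Group V] (N : Subgroup V), N.Normal → N.FiniteIndex → ∀ r : ℕ,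
    Nonempty (N ≃* FreeGroup (Fin (r + 1))) →
    ∃ (W : Type) (_ : MulAction V W) (X : SimpleGraph W) (u v : W), Spl V X u v N

/-- (R) the rank drops -/
def S_R : Prop :=
  ∀ (V : Type) [Group V] (N : Subgroup V), N.Normal → N.FiniteIndex → ∀ r : ℕ,
    Nonempty (N ≃* FreeGroup (Fin r)) →
    ∀ (W : Type) [MulAction V W] (X : SimpleGraph W) (u v : W) (h : Spl V X u v N) (x : W),
      x = u ∨ x = v →
      ∃ r' < r, Nonempty (N.subgroupOf (Sst (u := u) (v := v) h.act x) ≃* FreeGroup (Fin r'))

/-- (I) the groups in `VC` are free products of cyclic groups -/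
def S_I : Prop :=
  ∀ (V : Type) [Group V] (T : Type) [CommGroup T] [Finite T] (α : V →* T) (r : ℕ), VC V α r →
    ∃ (n : ℕ) (m : Fin n → ℕ), Nonempty (V ≃* FP m)

/-- (P) the groups in the genus of `FP m` are in `VC` -/
def S_P : Prop := FR →
  ∀ (ι : Type) [Finite ι] (m : ι → ℕ) (Λ : Type) [Group Λ], InGenus (FP m) Λ →
    ∃ (T : Type) (_ : CommGroup T) (_ : Finite T) (α : Λ →* T) (r : ℕ), VC Λ α r

/-- (M) matching -/
def S_M : Prop :=
  ∀ (ι : Type) [Finite ι] (m : ι → ℕ) (n : ℕ) (m' : Fin n → ℕ) (Λ : Type) [Group Λ],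
    InGenus (FP m) Λ → Nonempty (Λ ≃* FP m') → Nonempty (Λ ≃* FP m)

/-- the final statement -/
def S_VF : Prop := FR → ∀ (ι : Type) [Finite ι] (m : ι → ℕ), ProfinitelyRigid (FP m)

/-- the assembly -/
theorem vf_of (hP : S_P) (hI : S_I) (hM : S_M) : S_VF := by
  intro hFR ι _ m Λ _ hΛ
  obtain ⟨T, _, _, α, r, hα⟩ := hP hFR ι m Λ hΛ
  obtain ⟨n, m', hm'⟩ := hI Λ T α r hα
  exact hM ι m n m' Λ hΛ hm'

end Pool.Agent.VF
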